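import Pool.Agent.H91.DL.Plain

/-!
# Delaunay sets with mutually congruent `2 R`-clusters: symmetries of the clusters, any dimension

Let `X` be a Delaunay set of type `(r, R)` in Euclidean space of dimension `d ≥ 2` whose `2 R`-clusters are
mutually congruent, and let `S` be the symmetry group of the `2 R`-cluster at a point `x`.

(1) A symmetry `k ∈ S` which fixes at most a line of points moves some point `y ≠ x` by at least its distance
    from `x` (its rotation angles are not all smaller than 60 degrees).
(2) Every subgroup of `S` whose non-identical elements fix at most a line has at most `5 ^ (d ^ 2)` elements.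
(3) There is a radius `s ≤ 2 R` such that the `s`-cluster at `x` spans a flat of dimension at least two and the
    symmetries in `S` act on it in at most `5 ^ (d ^ 2)` ways.

Proof. Let `z` be a nearest point moved by a symmetry `k` close to the identity, and `t = |z - x|`. The points
`k z` and `k⁻¹ z` are nearer to `z` than `t`, and not collinear with `z`. As the clusters are congruent, the
points nearer to `x` than `t` span a flat of dimension at least two; it is fixed by `k`.
-/

set_option autoImplicit false

namespace Pool.Agent.Results.MP_c45da2_co.NearIdentitySymmetries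

open Pool.Agent.H91.DL Pool.Agent.H91.DL.Plain

theorem result (d : ℕ) (hd : 2 ≤ d) (r R : ℝ) (X : Set (E d)) (hX : Plain.IsDelaunay r R X)
    (hc : Congruent X (2 * R)) (x : E d) (hx : x ∈ X) :
    (∀ k ∈ Sym X x (2 * R), FixesAtMostLine k → ∃ y, y ≠ x ∧ len y x ≤ len (k y) y) ∧
    (∀ T, T ⊆ Sym X x (2 * R) → IsGroup T → (∀ k ∈ T, k ≠ id → FixesAtMostLine k) →
      T.Finite ∧ T.ncard ≤ 5 ^ (d ^ 2)) ∧
    ∃ s, 0 ≤ s ∧ s ≤ 2 * R ∧ 2 ≤ flatDim (Plain.cluster X x s) ∧
      (restrictions (Sym X x (2 * R)) (Plain.cluster X x s)).Finite ∧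
      (restrictions (Sym X x (2 * R)) (Plain.cluster X x s)).ncard ≤ 5 ^ (d ^ 2) := by
  refine ⟨fun k hk hf => one' hd hX hc hx hk hf, fun T hT hG hf => two' hd hX hc hx T hT hG hf, ?_⟩
  obtain ⟨s, h0, h1, h2, h3⟩ := radius hd (isDelaunay hX) hx
  exact ⟨s, h0, h1, h2, three' hX hc hx h1 h3⟩

end Pool.Agent.Results.MP_c45da2_co.NearIdentitySymmetries
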